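import Pool.Agent.H96.HK.TargetsN
import Pool.Agent.H96.HK.Basic

open MeasureTheory Set Filter Topology
open scoped ContDiff

namespace Pool.Agent.H39.HK
open Pool.Agent.H96.HK

section aux
variable {F : ℝ → ℝ} {n : ℕ}

theorem deriv_coord {c : ℝ → E (n + 2)} (hc : ContDiff ℝ 1 c) (i : Fin (n + 2)) (t : ℝ) :
    (deriv c t) i = deriv (fun τ => c τ i) t := by
  have h1 : HasDerivAt c (deriv c t) t :=
    (hc.differentiable (by norm_num)).differentiableAt.hasDerivAt
  have h2 := (EuclideanSpace.proj i : E (n + 2) →L[ℝ] ℝ).hasFDerivAt.comp_hasDerivAt t h1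
  exact h2.deriv.symm

theorem sq_gF (x v : E (n + 2)) :
    sq (gF F n) x v = v 0 ^ 2 + F (x 0) ^ 2 * v 1 ^ 2 + ∑ i : Fin n, v i.succ.succ ^ 2 := by
  unfold Pool.Agent.H96.HK.sq gF
  have h1 : ∀ i : Fin (n + 2), ∑ j, Matrix.diagonal
      (fun i : Fin (n + 2) => if i = 1 then F (x 0) ^ 2 else 1) i j * v i * v j =
      (if i = 1 then F (x 0) ^ 2 else 1) * v i ^ 2 := by
    intro i
    rw [Finset.sum_eq_single i]
    · rw [Matrix.diagonal_apply_eq]; ring
    · intro j _ hj
      rw [Matrix.diagonal_apply_ne _ (Ne.symm hj)]; ring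
    · intro h; exact absurd (Finset.mem_univ _) h
  simp_rw [h1]
  rw [Fin.sum_univ_succ, Fin.sum_univ_succ]
  have h2 : ((0 : Fin (n + 2)) = 1) = False := by simp
  have h3 : (Fin.succ (0 : Fin (n + 1))) = (1 : Fin (n + 2)) := by simp
  have h4 : ∀ i : Fin n, (i.succ.succ = (1 : Fin (n + 2))) = False := by
    intro i
    rw [eq_iff_iff, iff_false, ← h3]
    intro h
    exact absurd (Fin.succ_injective _ h) (Fin.succ_ne_zero i)
  simp only [h2, h3, h4, if_false, if_true, one_mul]
  ring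

theorem speed {c : ℝ → E (n + 2)} (hc : ContDiff ℝ 1 c) (t : ℝ) :
    sq (gF F n) (c t) (deriv c t) = spd F (fun τ => pX (c τ)) t ^ 2 +
      ∑ i : Fin n, deriv (fun τ => c τ i.succ.succ) t ^ 2 := by
  rw [sq_gF, spd, Real.sq_sqrt (by positivity)]
  simp only [pX, deriv_coord hc]

theorem spd_cont (hF : Continuous F) {g : ℝ → X} (hg : ContDiff ℝ 1 g) :
    Continuous (spd F g) := by
  unfold spd
  have h1 : Continuous (deriv fun τ => (g τ).1) :=
    (contDiff_fst.comp hg).continuous_deriv (le_refl 1)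
  have h2 : Continuous (deriv fun τ => (g τ).2) :=
    (contDiff_snd.comp hg).continuous_deriv (le_refl 1)
  have h3 : Continuous (fun τ => (g τ).1) := hg.continuous.fst
  exact ((h1.pow 2).add (((hF.comp h3).pow 2).mul (h2.pow 2))).sqrt

theorem coord_cd {c : ℝ → E (n + 2)} (hc : ContDiff ℝ 1 c) (i : Fin (n + 2)) :
    ContDiff ℝ 1 (fun τ => c τ i) := contDiff_euclidean.mp hc i

theorem pX_cd {c : ℝ → E (n + 2)} (hc : ContDiff ℝ 1 c) : ContDiff ℝ 1 (fun τ => pX (c τ)) :=
  (coord_cd hc 0).prodMk (coord_cd hc 1)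

theorem speed_cont (hF : Continuous F) {c : ℝ → E (n + 2)} (hc : ContDiff ℝ 1 c) :
    Continuous (fun t => √(sq (gF F n) (c t) (deriv c t))) := by
  simp_rw [speed hc]
  refine (((spd_cont hF (pX_cd hc)).pow 2).add ?_).sqrt
  refine continuous_finsetSum _ fun i _ => ?_
  exact ((coord_cd hc i.succ.succ).continuous_deriv (le_refl 1)).pow 2

theorem cs_aux (a d : ℝ) (z w : Fin n → ℝ) :
    a * d + ∑ i, z i * w i ≤ √(a ^ 2 + ∑ i, z i ^ 2) * √(d ^ 2 + ∑ i, w i ^ 2) := by
  have h := Finset.sum_mul_sq_le_sq_mul_sq Finset.univ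
    (Fin.cons a z : Fin (n + 1) → ℝ) (Fin.cons d w : Fin (n + 1) → ℝ)
  simp only [Fin.sum_univ_succ, Fin.cons_zero, Fin.cons_succ] at h
  rw [← Real.sqrt_mul (by positivity)]
  exact Real.le_sqrt_of_sq_le h

/-- lower bound -/
theorem low (hD : DD F) (hQ : DQ F) (hF : Continuous F) (hG : T_GAM) (x y : E (n + 2))
    {c : ℝ → E (n + 2)} (hc : ContDiff ℝ 1 c) (h0 : c 0 = x) {k : ℤ}
    (h1 : c 1 = (gam n ^ k) y) :
    √(dq F (pX x) (pX y) ^ 2 + zz x y) ≤ ∫ t in (0 : ℝ)..1, √(sq (gF F n) (c t) (deriv c t)) := by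
  set D : ℝ := √(dq F (pX x) (pX y) ^ 2 + zz x y) with hDd
  set L : ℝ := ∫ t in (0 : ℝ)..1, √(sq (gF F n) (c t) (deriv c t)) with hL
  have hL0 : 0 ≤ L := intervalIntegral.integral_nonneg zero_le_one fun t _ => Real.sqrt_nonneg _
  have hz0 : 0 ≤ zz x y := Finset.sum_nonneg fun i _ => sq_nonneg _
  have hD0 : 0 ≤ D := Real.sqrt_nonneg _
  rcases hD0.eq_or_lt with hD1 | hD1
  · rw [← hD1]; exact hL0
  obtain ⟨g1, g2⟩ := (hG n).1 k y
  -- pointwise bound
  have hpt : ∀ t, spd F (fun τ => pX (c τ)) t * dq F (pX x) (pX y) +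
      ∑ i : Fin n, deriv (fun τ => c τ i.succ.succ) t * (y i.succ.succ - x i.succ.succ) ≤
      √(sq (gF F n) (c t) (deriv c t)) * D := by
    intro t
    rw [speed hc, hDd]
    have h := cs_aux (spd F (fun τ => pX (c τ)) t) (dq F (pX x) (pX y))
      (fun i : Fin n => deriv (fun τ => c τ i.succ.succ) t)
      (fun i : Fin n => y i.succ.succ - x i.succ.succ)
    have e : zz x y = ∑ i : Fin n, (y i.succ.succ - x i.succ.succ) ^ 2 := by
      unfold zz
      exact Finset.sum_congr rfl fun i _ => by ring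
    rw [e]
    exact h
  have c1 : Continuous (spd F (fun τ => pX (c τ))) := spd_cont hF (pX_cd hc)
  have c2 : ∀ i : Fin n, Continuous (deriv (fun τ => c τ i.succ.succ)) := fun i =>
    (coord_cd hc i.succ.succ).continuous_deriv (le_refl 1)
  have i1 : IntervalIntegrable (fun t => spd F (fun τ => pX (c τ)) t * dq F (pX x) (pX y))
      volume 0 1 := (c1.mul continuous_const).intervalIntegrable _ _
  have i2 : ∀ i : Fin n, IntervalIntegrable (fun t => deriv (fun τ => c τ i.succ.succ) t *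
      (y i.succ.succ - x i.succ.succ)) volume 0 1 := fun i =>
    ((c2 i).mul continuous_const).intervalIntegrable _ _
  have i3 : IntervalIntegrable (fun t => ∑ i : Fin n, deriv (fun τ => c τ i.succ.succ) t *
      (y i.succ.succ - x i.succ.succ)) volume 0 1 :=
    (continuous_finsetSum _ fun i _ => (c2 i).mul continuous_const).intervalIntegrable _ _
  have i4 : IntervalIntegrable (fun t => √(Pool.Agent.H96.HK.sq (gF F n) (c t) (deriv c t)) * D)
      volume 0 1 := ((speed_cont hF hc).mul continuous_const).intervalIntegrable _ _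
  have hint := intervalIntegral.integral_mono_on (μ := volume) (a := (0 : ℝ)) (b := 1) zero_le_one
    (f := fun t => spd F (fun τ => pX (c τ)) t * dq F (pX x) (pX y) +
      ∑ i : Fin n, deriv (fun τ => c τ i.succ.succ) t * (y i.succ.succ - x i.succ.succ))
    (g := fun t => √(Pool.Agent.H96.HK.sq (gF F n) (c t) (deriv c t)) * D)
    (i1.add i3) i4 (fun t _ => hpt t)
  rw [intervalIntegral.integral_mul_const, ← hL, intervalIntegral.integral_add i1 i3,
    intervalIntegral.integral_mul_const, intervalIntegral.integral_finsetSum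
      (fun i _ => i2 i)] at hint
  have hsum : ∑ i : Fin n, ∫ t in (0 : ℝ)..1, deriv (fun τ => c τ i.succ.succ) t *
      (y i.succ.succ - x i.succ.succ) = zz x y := by
    unfold zz
    refine Finset.sum_congr rfl fun i _ => ?_
    rw [intervalIntegral.integral_mul_const, intervalIntegral.integral_deriv_eq_sub'
      (fun τ => c τ i.succ.succ) rfl
      (fun t _ => ((coord_cd hc i.succ.succ).differentiable (by norm_num)).differentiableAt)
      (c2 i).continuousOn]
    simp only [h0, h1, g2]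
    ring
  rw [hsum] at hint
  have hlen : dq F (pX x) (pX y) ≤ ∫ t in (0 : ℝ)..1, spd F (fun τ => pX (c τ)) t := by
    have h2 := hD.len (fun τ => pX (c τ)) 0 1 zero_le_one (pX_cd hc)
    simp only [h0, h1, g1] at h2
    exact (hQ.le _ _ k).trans h2
  have hd0 := hQ.nn (pX x) (pX y)
  have h3 : dq F (pX x) (pX y) ^ 2 ≤
      (∫ t in (0 : ℝ)..1, spd F (fun τ => pX (c τ)) t) * dq F (pX x) (pX y) := by
    rw [pow_two]
    exact mul_le_mul_of_nonneg_right hlen hd0
  have h4 : D ^ 2 = dq F (pX x) (pX y) ^ 2 + zz x y := Real.sq_sqrt (by positivity)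
  have h5 : D * D ≤ L * D := by
    have : D * D = D ^ 2 := by ring
    rw [this, h4]
    linarith
  exact le_of_mul_le_mul_right h5 hD1

/-- the lifted curve -/
noncomputable def cv (g : ℝ → X) (s : ℝ → ℝ) (x y : E (n + 2)) (t : ℝ) : E (n + 2) :=
  WithLp.toLp 2 (fun i => if i = 0 then (g t).1 else if i = 1 then (g t).2
    else x i + s t * (y i - x i))

theorem cv0 (g : ℝ → X) (s : ℝ → ℝ) (x y : E (n + 2)) (t : ℝ) : cv g s x y t 0 = (g t).1 := by
  simp [cv]

theorem cv1 (g : ℝ → X) (s : ℝ → ℝ) (x y : E (n + 2)) (t : ℝ) : cv g s x y t 1 = (g t).2 := by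
  simp [cv]

theorem cv2 (g : ℝ → X) (s : ℝ → ℝ) (x y : E (n + 2)) (t : ℝ) (i : Fin n) :
    cv g s x y t i.succ.succ = x i.succ.succ + s t * (y i.succ.succ - x i.succ.succ) := by
  have h3 : (Fin.succ (0 : Fin (n + 1))) = (1 : Fin (n + 2)) := by simp
  have h4 : i.succ.succ ≠ (1 : Fin (n + 2)) := by
    rw [← h3]
    intro h
    exact absurd (Fin.succ_injective _ h) (Fin.succ_ne_zero i)
  simp [cv, h4]

theorem cv_cd {g : ℝ → X} {s : ℝ → ℝ} (hg : ContDiff ℝ 1 g) (hs : ContDiff ℝ 1 s)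
    (x y : E (n + 2)) : ContDiff ℝ 1 (cv g s x y) := by
  rw [contDiff_euclidean]
  intro i
  have e : (fun t => cv g s x y t i) = fun t => if i = 0 then (g t).1 else if i = 1 then (g t).2
    else x i + s t * (y i - x i) := by
    funext t; simp [cv]
  rw [e]
  split_ifs
  · exact contDiff_fst.comp hg
  · exact contDiff_snd.comp hg
  · exact contDiff_const.add (hs.mul contDiff_const)

theorem idx (i : Fin (n + 2)) : i = 0 ∨ i = 1 ∨ ∃ j : Fin n, i = j.succ.succ := by
  refine Fin.cases (Or.inl rfl) (fun j => ?_) i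
  refine Fin.cases (Or.inr (Or.inl ?_)) (fun k => Or.inr (Or.inr ⟨k, rfl⟩)) j
  simp

/-- upper bound -/
theorem upp (hF : Continuous F) (hG : T_GAM) (x y : E (n + 2)) {k : ℤ} {g : ℝ → X}
    (hg : IsPath g (pX x) (gk k (pX y))) {η : ℝ} (hη : 0 < η) :
    dM (gF F n) (Gam n) x y ≤ √((len F g + η) ^ 2 + zz x y) := by
  obtain ⟨g1, g2⟩ := (hG n).1 k y
  have hspd : Continuous (spd F g) := spd_cont hF hg.c1
  have hspd0 : ∀ t, 0 ≤ spd F g t := fun t => Real.sqrt_nonneg _
  have hL0 : 0 ≤ len F g := intervalIntegral.integral_nonneg zero_le_one fun t _ => hspd0 t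
  set M : ℝ := len F g + η with hM
  have hM0 : 0 < M := by positivity
  have hz0 : 0 ≤ zz x y := Finset.sum_nonneg fun i _ => sq_nonneg _
  set s : ℝ → ℝ := fun t => (∫ τ in (0 : ℝ)..t, (spd F g τ + η)) / M with hs
  have hcont : Continuous (fun τ => spd F g τ + η) := hspd.add continuous_const
  have hsd : ∀ t, HasDerivAt s ((spd F g t + η) / M) t := fun t =>
    (intervalIntegral.integral_hasDerivAt_right (hcont.intervalIntegrable _ _)
      (hcont.stronglyMeasurableAtFilter _ _) hcont.continuousAt).div_const M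
  have hsc : ContDiff ℝ 1 s := by
    rw [contDiff_one_iff_deriv]
    refine ⟨fun t => (hsd t).differentiableAt, ?_⟩
    have : deriv s = fun t => (spd F g t + η) / M := funext fun t => (hsd t).deriv
    rw [this]
    exact hcont.div_const _
  have hs0 : s 0 = 0 := by simp [hs]
  have hs1 : s 1 = 1 := by
    simp only [hs]
    rw [intervalIntegral.integral_add (hspd.intervalIntegrable _ _)
      (continuous_const.intervalIntegrable _ _), intervalIntegral.integral_const]
    rw [div_eq_one_iff_eq hM0.ne', hM, len]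
    simp
  set c : ℝ → E (n + 2) := cv g s x y with hc
  have hcc : ContDiff ℝ 1 c := cv_cd hg.c1 hsc x y
  have hpX : (fun τ => pX (c τ)) = g := by
    funext τ
    simp only [pX, hc, cv0, cv1]
  have hsp : ∀ t, √(sq (gF F n) (c t) (deriv c t)) ≤
      (spd F g t + η) * √(1 + zz x y / M ^ 2) := by
    intro t
    rw [speed hcc, hpX]
    have e1 : ∀ i : Fin n, deriv (fun τ => c τ i.succ.succ) t =
        (spd F g t + η) / M * (y i.succ.succ - x i.succ.succ) := by
      intro i
      have e2 : (fun τ => c τ i.succ.succ) =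
          fun τ => x i.succ.succ + s τ * (y i.succ.succ - x i.succ.succ) := by
        funext τ
        rw [hc, cv2]
      rw [e2]
      exact (((hsd t).mul_const _).const_add _).deriv
    simp_rw [e1]
    have e3 : ∑ i : Fin n, ((spd F g t + η) / M * (y i.succ.succ - x i.succ.succ)) ^ 2 =
        (spd F g t + η) ^ 2 * (zz x y / M ^ 2) := by
      unfold zz
      rw [Finset.sum_div, Finset.mul_sum]
      refine Finset.sum_congr rfl fun i _ => ?_
      field_simp
      ring
    rw [e3]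
    have h5 : 0 ≤ spd F g t + η := by have := hspd0 t; linarith
    rw [← Real.sqrt_sq h5, ← Real.sqrt_mul (by positivity), Real.sqrt_sq h5]
    apply Real.sqrt_le_sqrt
    have h6 : spd F g t ^ 2 ≤ (spd F g t + η) ^ 2 :=
      pow_le_pow_left₀ (hspd0 t) (by linarith) 2
    linarith
  have hle : dM (gF F n) (Gam n) x y ≤ ∫ t in (0 : ℝ)..1, √(sq (gF F n) (c t) (deriv c t)) := by
    unfold dM
    refine csInf_le ⟨0, ?_⟩ ?_
    · rintro L ⟨c', _, _, _, rfl⟩
      exact intervalIntegral.integral_nonneg zero_le_one fun t _ => Real.sqrt_nonneg _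
    · refine ⟨c, hcc, ?_, ⟨gam n ^ k, ⟨k, rfl⟩, ?_⟩, rfl⟩
      · ext i
        rcases idx i with rfl | rfl | ⟨j, rfl⟩
        · rw [hc, cv0, hg.st]; rfl
        · rw [hc, cv1, hg.st]; rfl
        · rw [hc, cv2, hs0]; ring
      · ext i
        rcases idx i with rfl | rfl | ⟨j, rfl⟩
        · rw [hc, cv0, hg.en, ← g1]; rfl
        · rw [hc, cv1, hg.en, ← g1]; rfl
        · rw [hc, cv2, hs1, g2]; ring
  refine hle.trans ?_
  have hmono := intervalIntegral.integral_mono_on (μ := volume) (a := (0 : ℝ)) (b := 1) zero_le_one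
    (f := fun t => √(sq (gF F n) (c t) (deriv c t)))
    (g := fun t => (spd F g t + η) * √(1 + zz x y / M ^ 2))
    ((speed_cont hF hcc).intervalIntegrable _ _)
    ((hcont.mul continuous_const).intervalIntegrable _ _) (fun t _ => hsp t)
  refine hmono.trans (le_of_eq ?_)
  rw [intervalIntegral.integral_mul_const, intervalIntegral.integral_add
    (hspd.intervalIntegrable _ _) (continuous_const.intervalIntegrable _ _),
    intervalIntegral.integral_const]
  have e4 : (∫ t in (0 : ℝ)..1, spd F g t) + (1 - 0 : ℝ) • η = M := by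
    rw [hM, len]; simp
  rw [e4]
  rw [← Real.sqrt_sq hM0.le, ← Real.sqrt_mul (by positivity), Real.sqrt_sq hM0.le]
  congr 1
  field_simp

end aux

theorem dis (hG : T_GAM) (hDD : T_DD) (hDQ : T_DQ) : T_DIS := by
  intro F hF n x y
  have hD := hDD F hF
  have hQ := hDQ F hF
  have hFc := hF.continuous
  have hz0 : 0 ≤ zz x y := Finset.sum_nonneg fun i _ => sq_nonneg _
  obtain ⟨k, hk⟩ := hQ.att (pX x) (pX y)
  -- there are paths
  have hne : {L | ∃ c, IsPath c (pX x) (gk k (pX y)) ∧ L = len F c}.Nonempty := by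
    set p := pX x
    set q := gk k (pX y)
    refine ⟨_, fun t : ℝ => (p.1 + t * (q.1 - p.1), p.2 + t * (q.2 - p.2)), ⟨?_, ?_, ?_⟩, rfl⟩
    · fun_prop
    · simp
    · simp
  have hex : ∀ η > 0, ∃ g, IsPath g (pX x) (gk k (pX y)) ∧
      len F g < dq F (pX x) (pX y) + η := by
    intro η hη
    have h1 : sInf {L | ∃ c, IsPath c (pX x) (gk k (pX y)) ∧ L = len F c} <
        dq F (pX x) (pX y) + η := by
      rw [hk]
      change dd F (pX x) (gk k (pX y)) < _
      linarith
    obtain ⟨L, ⟨g, hg, rfl⟩, hL⟩ := exists_lt_of_csInf_lt hne h1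
    exact ⟨g, hg, hL⟩
  have hup : ∀ η > 0, dM (gF F n) (Gam n) x y ≤
      √((dq F (pX x) (pX y) + 2 * η) ^ 2 + zz x y) := by
    intro η hη
    obtain ⟨g, hg, hL⟩ := hex η hη
    refine (upp hFc hG x y hg hη).trans (Real.sqrt_le_sqrt ?_)
    have hL0 : 0 ≤ len F g :=
      intervalIntegral.integral_nonneg zero_le_one fun t _ => Real.sqrt_nonneg _
    have : (len F g + η) ^ 2 ≤ (dq F (pX x) (pX y) + 2 * η) ^ 2 :=
      pow_le_pow_left₀ (by positivity) (by linarith) 2
    linarith
  refine le_antisymm ?_ ?_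
  · have hc : Continuous fun η : ℝ => √((dq F (pX x) (pX y) + 2 * η) ^ 2 + zz x y) := by
      fun_prop
    have ht : Tendsto (fun η : ℝ => √((dq F (pX x) (pX y) + 2 * η) ^ 2 + zz x y)) (𝓝[>] 0)
        (𝓝 √(dq F (pX x) (pX y) ^ 2 + zz x y)) := by
      have := (hc.tendsto 0).mono_left (nhdsWithin_le_nhds (s := Ioi 0))
      simpa using this
    refine ge_of_tendsto ht ?_
    filter_upwards [self_mem_nhdsWithin] with η hη
    exact hup η hη
  · unfold dM
    refine le_csInf ?_ ?_
    · obtain ⟨g, hg, hL⟩ := hex 1 one_pos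
      obtain ⟨g1, g2⟩ := (hG n).1 k y
      refine ⟨_, cv g (fun t => t) x y, cv_cd hg.c1 contDiff_id x y, ?_,
        ⟨gam n ^ k, ⟨k, rfl⟩, ?_⟩, rfl⟩
      · ext i
        rcases idx i with rfl | rfl | ⟨j, rfl⟩
        · rw [cv0, hg.st]; rfl
        · rw [cv1, hg.st]; rfl
        · rw [cv2]; ring
      · ext i
        rcases idx i with rfl | rfl | ⟨j, rfl⟩
        · rw [cv0, hg.en, ← g1]; rfl
        · rw [cv1, hg.en, ← g1]; rfl
        · rw [cv2, g2]; ring
    · rintro L ⟨c, hc, h0, ⟨γ, hγ, h1⟩, rfl⟩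
      obtain ⟨j, rfl⟩ := Subgroup.mem_zpowers_iff.mp hγ
      exact low hD hQ hFc hG x y hc h0 h1

end Pool.Agent.H39.HK
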