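import Pool.Agent.H96.HK.Basic

open MeasureTheory Set Filter Topology
open scoped ContDiff

namespace Pool.Agent.H39.HK
open Pool.Agent.H96.HK

section aux

theorem hd_fst {E F : Type*} [NormedAddCommGroup E] [NormedSpace ℝ E] [NormedAddCommGroup F]
    [NormedSpace ℝ F] {f : ℝ → E × F} {f' : E × F} {t : ℝ} (h : HasDerivAt f f' t) :
    HasDerivAt (fun t => (f t).1) f'.1 t :=
  (ContinuousLinearMap.fst ℝ E F).hasFDerivAt.comp_hasDerivAt t h

theorem hd_snd {E F : Type*} [NormedAddCommGroup E] [NormedSpace ℝ E] [NormedAddCommGroup F]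
    [NormedSpace ℝ F] {f : ℝ → E × F} {f' : E × F} {t : ℝ} (h : HasDerivAt f f' t) :
    HasDerivAt (fun t => (f t).2) f'.2 t :=
  (ContinuousLinearMap.snd ℝ E F).hasFDerivAt.comp_hasDerivAt t h

theorem hdc {f : ℝ → ℝ} {a b x : ℝ} (h : HasDerivAt f a x) (e : b = a) : HasDerivAt f b x := by
  rw [e]; exact h

theorem lip_of_deriv {f f' : ℝ → ℝ} {C : ℝ} (hf : ∀ x, HasDerivAt f (f' x) x)
    (hC : ∀ x, |f' x| ≤ C) (s t : ℝ) : |f s - f t| ≤ C * |s - t| := by
  have := convex_univ.norm_image_sub_le_of_norm_hasDerivWithin_le (f := f) (f' := f')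
    (fun x _ => (hf x).hasDerivWithinAt) (fun x _ => hC x) (mem_univ t) (mem_univ s)
  simpa using this

theorem lip_mul {a b : ℝ → ℝ} {A La : ℝ} (ha : ∀ s, |a s| ≤ A)
    (hla : ∀ s t, |a s - a t| ≤ La * |s - t|) (hb : ∀ s, |b s| ≤ 1)
    (hlb : ∀ s t, |b s - b t| ≤ 1 * |s - t|) :
    LipschitzWith (Real.toNNReal (A + La)) (fun x : ℝ × ℝ × ℝ => a x.1 * b x.2.2) := by
  have hA : 0 ≤ A := (abs_nonneg _).trans (ha 0)
  have hLa : 0 ≤ La := by
    have := (abs_nonneg _).trans (hla 1 0)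
    simpa using this
  refine LipschitzWith.of_dist_le_mul fun x y => ?_
  rw [Real.coe_toNNReal _ (by positivity)]
  have h1 : |x.1 - y.1| ≤ dist x y := by
    rw [← Real.dist_eq]; exact le_max_left _ _
  have h2 : |x.2.2 - y.2.2| ≤ dist x y := by
    rw [← Real.dist_eq]; exact (le_max_right _ _).trans (le_max_right _ _)
  rw [Real.dist_eq]
  have h3 : a x.1 * b x.2.2 - a y.1 * b y.2.2 =
      (a x.1 - a y.1) * b x.2.2 + a y.1 * (b x.2.2 - b y.2.2) := by ring
  rw [h3]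
  refine (abs_add_le _ _).trans ?_
  rw [abs_mul, abs_mul]
  have h4 : |a x.1 - a y.1| * |b x.2.2| ≤ La * dist x y * 1 :=
    mul_le_mul ((hla _ _).trans (mul_le_mul_of_nonneg_left h1 hLa)) (hb _) (abs_nonneg _)
      (by positivity)
  have h5 : |a y.1| * |b x.2.2 - b y.2.2| ≤ A * dist x y :=
    mul_le_mul (ha _) ((hlb _ _).trans (by rw [one_mul]; exact h2)) (abs_nonneg _) hA
  linarith

/-- differentiation with respect to a parameter -/
theorem lin_aux {f k : ℝ → ℝ → ℝ} (hf : ContDiff ℝ 1 (fun z : ℝ × ℝ => f z.1 z.2))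
    (hk : ContDiff ℝ 1 (fun z : ℝ × ℝ => k z.1 z.2))
    (hd : ∀ r θ, HasDerivAt (fun r => f r θ) (k r θ) r) (r θ : ℝ) :
    HasDerivAt (fun r => deriv (f r) θ) (deriv (k r) θ) r := by
  have hkd : ∀ ρ x, HasDerivAt (k ρ) (fderiv ℝ (fun z : ℝ × ℝ => k z.1 z.2) (ρ, x) (0, 1)) x := by
    intro ρ x
    have h1 : HasFDerivAt (fun z : ℝ × ℝ => k z.1 z.2)
        (fderiv ℝ (fun z : ℝ × ℝ => k z.1 z.2) (ρ, x)) (ρ, x) :=
      (hk.differentiable (by norm_num)).differentiableAt.hasFDerivAt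
    have h2 : HasDerivAt (fun x : ℝ => (ρ, x)) ((0 : ℝ), (1 : ℝ)) x :=
      (hasDerivAt_const x ρ).prodMk (hasDerivAt_id x)
    exact h1.comp_hasDerivAt x h2
  have hfd : ∀ ρ x, DifferentiableAt ℝ (f ρ) x := by
    intro ρ x
    have h1 : DifferentiableAt ℝ (fun z : ℝ × ℝ => f z.1 z.2) (ρ, x) :=
      (hf.differentiable (by norm_num)).differentiableAt
    have h2 : DifferentiableAt ℝ (fun x : ℝ => (ρ, x)) x := by fun_prop
    exact DifferentiableAt.comp (g := fun z : ℝ × ℝ => f z.1 z.2) x h1 h2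
  have hkc : Continuous (fun z : ℝ × ℝ => k z.1 z.2) := hk.continuous
  have hkθ : Continuous (fun z : ℝ × ℝ => deriv (k z.1) z.2) := by
    have : (fun z : ℝ × ℝ => deriv (k z.1) z.2) =
        fun z : ℝ × ℝ => fderiv ℝ (fun z : ℝ × ℝ => k z.1 z.2) z (0, 1) := by
      funext z
      exact (hkd z.1 z.2).deriv
    rw [this]
    exact (hk.continuous_fderiv (by norm_num)).clm_apply continuous_const
  have hint : ∀ R x, HasDerivAt (fun x => ∫ ρ in (0 : ℝ)..R, k ρ x)
      (∫ ρ in (0 : ℝ)..R, deriv (k ρ) x) x := by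
    intro R x
    obtain ⟨C, hC⟩ := ((isCompact_uIcc (a := (0 : ℝ)) (b := R)).prod
      (isCompact_Icc (a := x - 1) (b := x + 1))).exists_bound_of_continuousOn
      (hkθ.continuousOn (s := uIcc 0 R ×ˢ Icc (x - 1) (x + 1)))
    refine (intervalIntegral.hasDerivAt_integral_of_dominated_loc_of_deriv_le
      (F := fun x ρ => k ρ x) (F' := fun x ρ => deriv (k ρ) x) (bound := fun _ => C)
      (s := Icc (x - 1) (x + 1)) (Icc_mem_nhds (by linarith) (by linarith)) ?_ ?_ ?_ ?_ ?_ ?_).2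
    · refine Eventually.of_forall fun y => ?_
      exact (hkc.comp (by fun_prop : Continuous fun ρ : ℝ => (ρ, y))).aestronglyMeasurable
    · exact (hkc.comp (by fun_prop : Continuous fun ρ : ℝ => (ρ, x))).intervalIntegrable _ _
    · exact (hkθ.comp (by fun_prop : Continuous fun ρ : ℝ => (ρ, x))).aestronglyMeasurable
    · refine ae_of_all _ fun ρ hρ y hy => ?_
      exact hC (ρ, y) ⟨uIoc_subset_uIcc hρ, hy⟩
    · exact intervalIntegrable_const
    · refine ae_of_all _ fun ρ _ y _ => ?_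
      have := hkd ρ y
      rwa [← this.deriv] at this
  have hfe : ∀ R x, f R x = f 0 x + ∫ ρ in (0 : ℝ)..R, k ρ x := by
    intro R x
    have := intervalIntegral.integral_eq_sub_of_hasDerivAt (a := 0) (b := R)
      (f := fun r => f r x) (f' := fun r => k r x) (fun ρ _ => hd ρ x)
      ((hkc.comp (by fun_prop : Continuous fun ρ : ℝ => (ρ, x))).intervalIntegrable _ _)
    rw [this]
    ring
  have hfθ : ∀ R x, deriv (f R) x = deriv (f 0) x + ∫ ρ in (0 : ℝ)..R, deriv (k ρ) x := by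
    intro R x
    have h1 : HasDerivAt (f R) (deriv (f 0) x + ∫ ρ in (0 : ℝ)..R, deriv (k ρ) x) x := by
      have h2 := (hfd 0 x).hasDerivAt.add (hint R x)
      have h3 : f R = fun x => f 0 x + ∫ ρ in (0 : ℝ)..R, k ρ x := funext fun x => hfe R x
      rw [h3]
      exact h2
    exact h1.deriv
  have h4 : (fun r => deriv (f r) θ) = fun R => deriv (f 0) θ + ∫ ρ in (0 : ℝ)..R, deriv (k ρ) θ :=
    funext fun R => hfθ R θ
  rw [h4]
  have hc : Continuous fun ρ : ℝ => deriv (k ρ) θ :=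
    hkθ.comp (by fun_prop : Continuous fun ρ : ℝ => (ρ, θ))
  exact (intervalIntegral.integral_hasDerivAt_right (hc.intervalIntegrable _ _)
    (hc.stronglyMeasurableAtFilter _ _) hc.continuousAt).const_add _

end aux

theorem flow (hG : T_GFL) (hFB : T_FB) : T_FLOW := by
  intro F hF s1
  obtain ⟨K, hK⟩ := hFB F hF
  have hF0 : 0 < F 0 := hF.pos 0
  have hne : ∀ s, F s ≠ 0 := fun s => (hF.pos s).ne'
  have hdF : ∀ s, HasDerivAt F (deriv F s) s := fun s =>
    (hF.smooth.differentiable (by norm_num)).differentiableAt.hasDerivAt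
  have hdF' : ∀ s, HasDerivAt (deriv F) (deriv (deriv F) s) s := fun s =>
    (hK.sm1.differentiable (by norm_num)).differentiableAt.hasDerivAt
  have hinv : ∀ s, (F s)⁻¹ ≤ (F 0)⁻¹ := fun s => inv_anti₀ hF0 (hK.m0 s)
  have hinv0 : ∀ s, 0 < (F s)⁻¹ := fun s => inv_pos.mpr (hF.pos s)
  -- the two coefficient functions
  have a2b : ∀ s, |(F s)⁻¹| ≤ (F 0)⁻¹ := fun s => by rw [abs_of_pos (hinv0 s)]; exact hinv s
  have a2l : ∀ s t, |(F s)⁻¹ - (F t)⁻¹| ≤ ((F 0)⁻¹ ^ 2) * |s - t| := by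
    refine lip_of_deriv (f' := fun s => -deriv F s / F s ^ 2) (fun s => (hdF s).inv (hne s)) ?_
    intro s
    rw [abs_div, abs_neg, abs_of_pos (pow_pos (hF.pos s) 2), div_eq_mul_inv, ← inv_pow]
    have h1 : (F s)⁻¹ ^ 2 ≤ (F 0)⁻¹ ^ 2 := pow_le_pow_left₀ (hinv0 s).le (hinv s) 2
    calc |deriv F s| * (F s)⁻¹ ^ 2 ≤ 1 * (F 0)⁻¹ ^ 2 :=
          mul_le_mul (hK.d1 s) h1 (by positivity) zero_le_one
      _ = _ := one_mul _
  have a3b : ∀ s, |-(deriv F s / F s)| ≤ (F 0)⁻¹ := by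
    intro s
    rw [abs_neg, abs_div, abs_of_pos (hF.pos s), div_eq_mul_inv]
    calc |deriv F s| * (F s)⁻¹ ≤ 1 * (F 0)⁻¹ :=
          mul_le_mul (hK.d1 s) (hinv s) (hinv0 s).le zero_le_one
      _ = _ := one_mul _
  have a3l : ∀ s t, |-(deriv F s / F s) - -(deriv F t / F t)| ≤ (K + (F 0)⁻¹ ^ 2) * |s - t| := by
    refine lip_of_deriv (f := fun s => -(deriv F s / F s))
      (f' := fun s => -((deriv (deriv F) s * F s - deriv F s * deriv F s) / F s ^ 2))
      (fun s => ((hdF' s).div (hdF s) (hne s)).neg) ?_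
    intro s
    rw [abs_neg]
    have e1 : (deriv (deriv F) s * F s - deriv F s * deriv F s) / F s ^ 2 =
        deriv (deriv F) s / F s - (deriv F s / F s) ^ 2 := by
      have := hne s
      field_simp
    rw [e1]
    refine (abs_sub _ _).trans (add_le_add ?_ ?_)
    · rw [abs_of_nonneg (div_nonneg (hF.convex s) (hF.pos s).le), div_le_iff₀ (hF.pos s)]
      exact hK.d2F s
    · rw [abs_pow]
      have := a3b s
      rw [abs_neg] at this
      exact pow_le_pow_left₀ (abs_nonneg _) this 2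
  have hcl : ∀ s t, |Real.cos s - Real.cos t| ≤ 1 * |s - t| :=
    lip_of_deriv (f' := fun s => -Real.sin s) Real.hasDerivAt_cos
      (fun s => by rw [abs_neg]; exact Real.abs_sin_le_one s)
  have hsl : ∀ s t, |Real.sin s - Real.sin t| ≤ 1 * |s - t| :=
    lip_of_deriv (f' := fun s => Real.cos s) Real.hasDerivAt_sin
      (fun s => Real.abs_cos_le_one s)
  set g : ℝ × ℝ × ℝ → ℝ × ℝ × ℝ := fun x => (1 * Real.cos x.2.2, (F x.1)⁻¹ * Real.sin x.2.2,
    (-(deriv F x.1 / F x.1)) * Real.sin x.2.2) with hg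
  have hgc : ContDiff ℝ 1 g := by
    have c1 : ContDiff ℝ 1 F := hF.smooth.of_le (by norm_cast)
    have c2 : ContDiff ℝ 1 (deriv F) := hK.sm1.of_le (by norm_cast)
    have c3 : ContDiff ℝ 1 (fun x : ℝ × ℝ × ℝ => F x.1) := c1.comp contDiff_fst
    have c4 : ContDiff ℝ 1 (fun x : ℝ × ℝ × ℝ => deriv F x.1) := c2.comp contDiff_fst
    have c5 : ContDiff ℝ 1 (fun x : ℝ × ℝ × ℝ => Real.sin x.2.2) :=
      Real.contDiff_sin.comp (contDiff_snd.comp contDiff_snd)
    have c6 : ContDiff ℝ 1 (fun x : ℝ × ℝ × ℝ => Real.cos x.2.2) :=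
      Real.contDiff_cos.comp (contDiff_snd.comp contDiff_snd)
    exact (contDiff_const.mul c6).prodMk (((c3.inv fun x => hne _).mul c5).prodMk
      (((c4.div c3 fun x => hne _).neg).mul c5))
  have hgl := (lip_mul (a := fun _ => (1 : ℝ)) (A := 1) (La := 0) (b := Real.cos)
      (fun s => by simp) (fun s t => by simp) Real.abs_cos_le_one hcl).prodMk
    ((lip_mul (a := fun s => (F s)⁻¹) a2b a2l Real.abs_sin_le_one hsl).prodMk
    (lip_mul (a := fun s => -(deriv F s / F s)) a3b a3l Real.abs_sin_le_one hsl))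
  have hgb : ∀ x, ‖g x‖ ≤ 1 + (F 0)⁻¹ := by
    intro x
    have hi : 0 < (F 0)⁻¹ := hinv0 0
    rw [hg]
    simp only [Prod.norm_mk, sup_le_iff, Real.norm_eq_abs]
    refine ⟨?_, ?_, ?_⟩
    · rw [one_mul]
      have := Real.abs_cos_le_one x.2.2
      linarith
    · rw [abs_mul]
      have := mul_le_mul (a2b x.1) (Real.abs_sin_le_one x.2.2) (abs_nonneg _) hi.le
      linarith
    · rw [abs_mul]
      have := mul_le_mul (a3b x.1) (Real.abs_sin_le_one x.2.2) (abs_nonneg _) hi.le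
      linarith
  obtain ⟨α, h0, hder, hc1⟩ := hG g _ _ hgc hgl hgb
  set S : ℝ → ℝ → ℝ := fun r θ => (α r (s1, 0, θ)).1 with hS
  set P : ℝ → ℝ → ℝ := fun r θ => (α r (s1, 0, θ)).2.1 with hP
  set T : ℝ → ℝ → ℝ := fun r θ => (α r (s1, 0, θ)).2.2 with hT
  set A : ℝ → ℝ → ℝ := fun r θ => Real.cos (T r θ) with hA
  set B : ℝ → ℝ → ℝ := fun r θ => Real.sin (T r θ) / F (S r θ) with hB
  have hSr : ∀ r θ, HasDerivAt (fun r => S r θ) (A r θ) r := by
    intro r θ
    have := hd_fst (hder (s1, 0, θ) r)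
    simp only [hg, one_mul] at this
    exact this
  have hPr : ∀ r θ, HasDerivAt (fun r => P r θ) (B r θ) r := by
    intro r θ
    have := hd_fst (hd_snd (hder (s1, 0, θ) r))
    simp only [hg] at this
    rw [mul_comm, ← div_eq_mul_inv] at this
    exact this
  have hTr : ∀ r θ, HasDerivAt (fun r => T r θ)
      (-(deriv F (S r θ) / F (S r θ)) * Real.sin (T r θ)) r := by
    intro r θ
    have := hd_snd (hd_snd (hder (s1, 0, θ) r))
    simp only [hg] at this
    exact this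
  have hFS : ∀ r θ, HasDerivAt (fun r => F (S r θ)) (deriv F (S r θ) * A r θ) r := by
    intro r θ
    exact (hdF (S r θ)).comp r (hSr r θ)
  have hAr : ∀ r θ, HasDerivAt (fun r => A r θ)
      (F (S r θ) * deriv F (S r θ) * B r θ ^ 2) r := by
    intro r θ
    have h1 := (Real.hasDerivAt_cos (T r θ)).comp r (hTr r θ)
    refine hdc h1 ?_
    change F (S r θ) * deriv F (S r θ) * (Real.sin (T r θ) / F (S r θ)) ^ 2 = _
    have := hne (S r θ)
    field_simp
  have hBr : ∀ r θ, HasDerivAt (fun r => B r θ)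
      (-(2 * (deriv F (S r θ) / F (S r θ)) * A r θ * B r θ)) r := by
    intro r θ
    have h1 := ((Real.hasDerivAt_sin (T r θ)).comp r (hTr r θ)).div (hFS r θ) (hne _)
    refine hdc h1 ?_
    change -(2 * (deriv F (S r θ) / F (S r θ)) * Real.cos (T r θ) *
      (Real.sin (T r θ) / F (S r θ))) = (Real.cos (T r θ) *
        (-(deriv F (S r θ) / F (S r θ)) * Real.sin (T r θ)) * F (S r θ) -
        Real.sin (T r θ) * (deriv F (S r θ) * Real.cos (T r θ))) / F (S r θ) ^ 2
    have := hne (S r θ)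
    field_simp
    ring
  have hαc : ContDiff ℝ 1 (fun z : ℝ × ℝ => α z.1 (s1, 0, z.2)) := by
    have : ContDiff ℝ 1 (fun z : ℝ × ℝ => (z.1, ((s1, 0, z.2) : ℝ × ℝ × ℝ))) := by fun_prop
    exact hc1.comp this
  have cS : ContDiff ℝ 1 (fun z : ℝ × ℝ => S z.1 z.2) := contDiff_fst.comp hαc
  have cP : ContDiff ℝ 1 (fun z : ℝ × ℝ => P z.1 z.2) :=
    (contDiff_fst.comp contDiff_snd).comp hαc
  have cT : ContDiff ℝ 1 (fun z : ℝ × ℝ => T z.1 z.2) :=
    (contDiff_snd.comp contDiff_snd).comp hαc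
  have c1 : ContDiff ℝ 1 F := hF.smooth.of_le (by norm_cast)
  have c2 : ContDiff ℝ 1 (deriv F) := hK.sm1.of_le (by norm_cast)
  have cFS : ContDiff ℝ 1 (fun z : ℝ × ℝ => F (S z.1 z.2)) := c1.comp cS
  have cF'S : ContDiff ℝ 1 (fun z : ℝ × ℝ => deriv F (S z.1 z.2)) := c2.comp cS
  have cA : ContDiff ℝ 1 (fun z : ℝ × ℝ => A z.1 z.2) := Real.contDiff_cos.comp cT
  have cB : ContDiff ℝ 1 (fun z : ℝ × ℝ => B z.1 z.2) :=
    (Real.contDiff_sin.comp cT).div cFS fun z => hne _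
  have slice : ∀ {f : ℝ → ℝ → ℝ}, ContDiff ℝ 1 (fun z : ℝ × ℝ => f z.1 z.2) → ∀ r θ,
      HasDerivAt (f r) (deriv (f r) θ) θ := by
    intro f hf r θ
    have h1 : DifferentiableAt ℝ (fun z : ℝ × ℝ => f z.1 z.2) (r, θ) :=
      (hf.differentiable (by norm_num)).differentiableAt
    have h2 : DifferentiableAt ℝ (fun x : ℝ => (r, x)) θ := by fun_prop
    exact (DifferentiableAt.comp (g := fun z : ℝ × ℝ => f z.1 z.2) θ h1 h2).hasDerivAt
  have per : ∀ r θ, S r (θ + 2 * Real.pi) = S r θ ∧ P r (θ + 2 * Real.pi) = P r θ := by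
    intro r θ
    have hgp : ∀ x : ℝ × ℝ × ℝ, g (x + (0, 0, 2 * Real.pi)) = g x := by
      intro x
      simp only [hg, Prod.fst_add, Prod.snd_add, add_zero, Real.cos_add_two_pi,
        Real.sin_add_two_pi]
    have huniq := ODE_solution_unique_univ (v := fun _ => g) (s := fun _ => univ)
      (f := fun t => α t (s1, 0, θ + 2 * Real.pi))
      (g := fun t => α t (s1, 0, θ) + (0, 0, 2 * Real.pi)) (t₀ := 0)
      (fun t => hgl.lipschitzOnWith) (fun t => ⟨hder _ t, mem_univ _⟩)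
      (fun t => ⟨by
        have := (hder (s1, 0, θ) t).add_const ((0, 0, 2 * Real.pi) : ℝ × ℝ × ℝ)
        rw [hgp]
        exact this, mem_univ _⟩)
      (by
        simp only [h0]
        ext <;> simp)
    have h3 : α r (s1, 0, θ + 2 * Real.pi) = α r (s1, 0, θ) + (0, 0, 2 * Real.pi) :=
      congrFun huniq r
    refine ⟨?_, ?_⟩
    · simp only [hS, h3, Prod.fst_add, add_zero]
    · simp only [hP, h3, Prod.fst_add, Prod.snd_add, add_zero]
  refine ⟨S, P, A, B, ?_, ?_, ?_, ?_, hSr, hPr, hAr, hBr, ?_, per, ⟨cS, cP, cA, cB⟩,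
    lin_aux cS cA hSr, lin_aux cP cB hPr, ?_, ?_⟩
  · intro θ; simp only [hS, h0]
  · intro θ; simp only [hP, h0]
  · intro θ; simp only [hA, hT, h0]
  · intro θ; simp only [hB, hT, hS, h0]
  · intro r θ
    change Real.cos (T r θ) ^ 2 + F (S r θ) ^ 2 * (Real.sin (T r θ) / F (S r θ)) ^ 2 = 1
    have := hne (S r θ)
    have h1 := Real.sin_sq_add_cos_sq (T r θ)
    field_simp
    linarith
  · intro r θ
    have h1 := lin_aux cA (k := fun r θ => F (S r θ) * deriv F (S r θ) * B r θ ^ 2)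
      ((cFS.mul cF'S).mul (cB.pow 2)) hAr r θ
    refine hdc h1 ?_
    have hs := slice cS r θ
    have hb := slice cB r θ
    have h2 : HasDerivAt (fun θ => F (S r θ) * deriv F (S r θ) * B r θ ^ 2)
        ((deriv F (S r θ) * deriv (S r) θ * deriv F (S r θ) +
          F (S r θ) * (deriv (deriv F) (S r θ) * deriv (S r) θ)) * B r θ ^ 2 +
          F (S r θ) * deriv F (S r θ) * (2 * B r θ * deriv (B r) θ)) θ := by
      have e1 := ((hdF (S r θ)).comp θ hs).mul ((hdF' (S r θ)).comp θ hs)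
      have e2 := e1.mul (hb.pow 2)
      refine hdc e2 ?_
      simp only [Pi.mul_apply, Pi.pow_apply, Function.comp, Nat.cast_ofNat]
      ring
    rw [h2.deriv]
    ring
  · intro r θ
    have cq : ContDiff ℝ 1 (fun z : ℝ × ℝ => deriv F (S z.1 z.2) / F (S z.1 z.2)) :=
      cF'S.div cFS fun z => hne _
    have h1 := lin_aux cB
      (k := fun r θ => -(2 * (deriv F (S r θ) / F (S r θ)) * A r θ * B r θ))
      ((((contDiff_const.mul cq).mul cA).mul cB).neg) hBr r θ
    refine hdc h1 ?_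
    have hs := slice cS r θ
    have hb := slice cB r θ
    have ha := slice cA r θ
    have h2 : HasDerivAt (fun θ => -(2 * (deriv F (S r θ) / F (S r θ)) * A r θ * B r θ))
        (-((2 * ((deriv (deriv F) (S r θ) * deriv (S r) θ * F (S r θ) -
          deriv F (S r θ) * (deriv F (S r θ) * deriv (S r) θ)) / F (S r θ) ^ 2) * A r θ +
          2 * (deriv F (S r θ) / F (S r θ)) * deriv (A r) θ) * B r θ +
          2 * (deriv F (S r θ) / F (S r θ)) * A r θ * deriv (B r) θ)) θ := by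
      have e1 := ((hdF' (S r θ)).comp θ hs).div ((hdF (S r θ)).comp θ hs) (hne _)
      have e2 := (((e1.const_mul 2).mul ha).mul hb).neg
      exact e2
    rw [h2.deriv]
    have := hne (S r θ)
    field_simp
    ring

end Pool.Agent.H39.HK
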